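import Mathlib
import Pool.Agent.Q14.MCN11202

set_option autoImplicit false

/-! # A strong MC number with an MC-circle carrying only five lattice points -/

namespace Pool.Agent.Results.MP_c7ed95_nt.FiveBoundaryPoints

open Pool.Agent.Q14.MC

theorem x_eq : N11202.cert.x = -1 / 4 := by
  unfold Cert.x N11202.cert
  norm_num

theorem y_eq : N11202.cert.y = -1 / 4 := by
  unfold Cert.y N11202.cert
  norm_num

theorem R_eq : N11202.cert.R = Real.sqrt (28561 / 8) := by
  unfold Cert.R N11202.cert
  push_cast
  have : (3833392529408 : ℝ) = 32768 ^ 2 * (28561 / 8) := by norm_num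
  rw [this, Real.sqrt_mul (by norm_num), Real.sqrt_sq (by norm_num)]
  field_simp

/-- `11202` is a strong MC number, the circle with centre `(-1/4, -1/4)` and squared radius
`28561/8` is an MC-circle of `11202`, and there are exactly five lattice points on it. -/
theorem result : IsStrongMC 11202 ∧
    IsMCCircle 11202 (-1 / 4) (-1 / 4) (Real.sqrt (28561 / 8)) ∧
    (onCircle (-1 / 4) (-1 / 4) (Real.sqrt (28561 / 8))).encard = 5 := by
  have h := N11202.good.isMCCircle (by decide)
  have hb := N11202.good.onCircle_encard rfl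
  rw [x_eq, y_eq, R_eq] at h hb
  exact ⟨⟨⟨_, _, _, h⟩, N11202.not_mc_1⟩, h, hb⟩

end Pool.Agent.Results.MP_c7ed95_nt.FiveBoundaryPoints
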